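import Mathlib

/-!
# An ideal which is the set of its own ideal limit points of a sequence in the Cantor space
-/

set_option autoImplicit false

namespace Pool.Agent.H729Z.SelfLim

open Set Filter Topology

/-- iterated out-neighbourhoods -/
def level {α : Type} (R : α → α → Prop) (a : α) : ℕ → Set α
  | 0 => {a}
  | n + 1 => ⋃ b ∈ level R a n, {c | R b c}

theorem level_countable {α : Type} {R : α → α → Prop} (hR : ∀ a, {c | R a c}.Countable) (a : α) :
    ∀ n, (level R a n).Countable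
  | 0 => countable_singleton a
  | n + 1 => (level_countable hR a n).biUnion fun b _ => hR b

theorem exists_order {α : Type} (R : α → α → Prop) (hR : ∀ a, {c | R a c}.Countable) :
    ∃ f : α → Cardinal.{0} ×ₗ ℕ, Function.Injective f ∧
      ∀ c, {b | f b ≤ f c ∧ R b c}.Finite := by
  classical
  let D : α → Set α := fun a => ⋃ n, level R a n
  have hD : ∀ a, (D a).Countable := fun a => countable_iUnion (level_countable hR a)
  have hself : ∀ a, a ∈ D a := fun a => mem_iUnion.2 ⟨0, rfl⟩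
  have hclosed : ∀ a b c, b ∈ D a → R b c → c ∈ D a := by
    intro a b c hb hbc
    obtain ⟨n, hn⟩ := mem_iUnion.1 hb
    exact mem_iUnion.2 ⟨n + 1, mem_biUnion hn hbc⟩
  choose g hg using fun a => Set.countable_iff_exists_injOn.1 (hD a)
  let e : α ↪ Cardinal.{0} := embeddingToCardinal
  have hex : ∀ c, ∃ a, c ∈ D a ∧ ∀ a', c ∈ D a' → e a ≤ e a' := by
    intro c
    obtain ⟨_, ⟨a, ha, rfl⟩, hmin⟩ :=
      (wellFounded_lt (α := Cardinal.{0})).has_min (e '' {a | c ∈ D a}) ⟨e c, c, hself c, rfl⟩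
    exact ⟨a, ha, fun a' ha' => not_lt.1 (hmin _ ⟨a', ha', rfl⟩)⟩
  choose base hb1 hb2 using hex
  refine ⟨fun c => toLex (e (base c), g (base c) c), ?_, ?_⟩
  · intro c c' h
    have h1 := toLex.injective h
    have h2 : base c = base c' := e.injective (congrArg Prod.fst h1)
    have h3 : g (base c) c = g (base c') c' := congrArg Prod.snd h1
    rw [← h2] at h3
    exact hg (base c) (hb1 c) (h2 ▸ hb1 c') h3
  · intro c
    have hfin : (D (base c) ∩ g (base c) ⁻¹' Iic (g (base c) c)).Finite :=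
      Set.Finite.of_finite_image ((finite_Iic (g (base c) c)).subset (by
        rintro _ ⟨b, hb, rfl⟩
        exact hb.2)) ((hg (base c)).mono inter_subset_left)
    refine hfin.subset ?_
    rintro b ⟨h1, h2⟩
    have h3 : e (base c) ≤ e (base b) := hb2 c _ (hclosed _ b c (hb1 b) h2)
    rcases Prod.Lex.toLex_le_toLex.1 h1 with h4 | ⟨h4, h5⟩
    · exact absurd h4 (not_lt.2 h3)
    · have h6 : base b = base c := e.injective h4
      refine ⟨h6 ▸ hb1 b, ?_⟩
      simp only at h5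
      rw [h6] at h5
      exact h5

/-- the ideal generated by a family -/
inductive Gen (G : Set (Set ℕ)) : Set ℕ → Prop
  | base (A : Set ℕ) : A ∈ G → Gen G A
  | fin (A : Set ℕ) : A.Finite → Gen G A
  | sub (A B : Set ℕ) : B ⊆ A → Gen G A → Gen G B
  | union (A B : Set ℕ) : Gen G A → Gen G B → Gen G (A ∪ B)

theorem Gen.trans {G H : Set (Set ℕ)} (h : ∀ A ∈ G, Gen H A) {A : Set ℕ} (hA : Gen G A) :
    Gen H A := by
  induction hA with
  | base A hA => exact h A hA
  | fin A hA => exact Gen.fin A hA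
  | sub A B hBA _ ih => exact Gen.sub A B hBA ih
  | union A B _ _ ih1 ih2 => exact Gen.union A B ih1 ih2

theorem Gen.inter_finite {G : Set (Set ℕ)} {S : Set ℕ} (h : ∀ A ∈ G, (S ∩ A).Finite)
    {B : Set ℕ} (hB : Gen G B) : (S ∩ B).Finite := by
  induction hB with
  | base A hA => exact h A hA
  | fin A hA => exact hA.subset inter_subset_right
  | sub A B hBA _ ih => exact ih.subset (inter_subset_inter_right _ hBA)
  | union A B _ _ ih1 ih2 =>
    rw [inter_union_distrib_left]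
    exact ih1.union ih2

theorem Gen.biUnion {G : Set (Set ℕ)} {β : Type} {s : Set β} (hs : s.Finite) {f : β → Set ℕ}
    (hf : ∀ j ∈ s, Gen G (f j)) : Gen G (⋃ j ∈ s, f j) := by
  induction s, hs using Set.Finite.induction_on with
  | empty => simpa using Gen.fin _ finite_empty
  | insert _ _ ih =>
    rw [biUnion_insert]
    exact Gen.union _ _ (hf _ (mem_insert _ _)) (ih fun j hj => hf j (mem_insert_of_mem _ hj))

/-- the sequence: every finite set is repeated infinitely often -/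
noncomputable def xs (i : ℕ) : ℕ → Bool :=
  fun j => decide (j ∈ Denumerable.ofNat (Finset ℕ) (Nat.unpair i).1)

theorem xs_dense (ζ : ℕ → Bool) (n : ℕ) : {i | ∀ j < n, xs i j = ζ j}.Infinite := by
  classical
  let F : Finset ℕ := (Finset.range n).filter fun j => ζ j = true
  obtain ⟨c, hc⟩ : ∃ c, Denumerable.ofNat (Finset ℕ) c = F :=
    (Denumerable.eqv (Finset ℕ)).symm.surjective F
  have hinj : Function.Injective fun m => Nat.pair c m := by
    intro m m' h
    exact (Nat.pair_eq_pair.1 h).2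
  refine (infinite_range_of_injective hinj).mono ?_
  rintro _ ⟨m, rfl⟩ j hj
  simp only [xs, Nat.unpair_pair, hc, F, Finset.mem_filter,
    Finset.mem_range, hj, true_and]
  cases ζ j <;> simp

/-- convergence of the subsequence indexed by `S` -/
def Conv (S : Set ℕ) (ζ : ℕ → Bool) : Prop := ∀ j, {i | i ∈ S ∧ xs i j ≠ ζ j}.Finite

theorem tendsto_iff_conv {S : Set ℕ} {ζ : ℕ → Bool} :
    Tendsto xs (atTop ⊓ 𝓟 S) (𝓝 ζ) ↔ Conv S ζ := by
  rw [tendsto_pi_nhds, ← Nat.cofinite_eq_atTop]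
  refine forall_congr' fun j => ?_
  rw [nhds_discrete, tendsto_pure, eventually_inf_principal, eventually_cofinite]
  simp

theorem Conv.mono {S T : Set ℕ} {ζ : ℕ → Bool} (h : Conv S ζ) (hTS : T ⊆ S) : Conv T ζ :=
  fun j => (h j).subset fun _ hi => ⟨hTS hi.1, hi.2⟩

theorem Conv.unique {S : Set ℕ} {ζ ζ' : ℕ → Bool} (hS : S.Infinite) (h : Conv S ζ)
    (h' : Conv S ζ') : ζ = ζ' := by
  funext j
  obtain ⟨i, hi, hi2⟩ := (hS.sdiff ((h j).union (h' j))).nonempty
  simp only [mem_union, mem_ofPred_eq, hi, true_and, not_or, not_not] at hi2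
  rw [← hi2.1, hi2.2]

theorem exists_conv {W : Set ℕ} {ζ : ℕ → Bool}
    (h : ∀ n, {i | i ∈ W ∧ ∀ j < n, xs i j = ζ j}.Infinite) :
    ∃ S : Set ℕ, S ⊆ W ∧ S.Infinite ∧ Conv S ζ := by
  choose a ha1 ha2 using fun n => (h n).exists_gt n
  refine ⟨range a, ?_, ?_, fun j => ?_⟩
  · rintro _ ⟨n, rfl⟩
    exact (ha1 n).1
  · exact Set.infinite_of_forall_exists_gt fun n => ⟨a n, mem_range_self n, ha2 n⟩
  · refine ((Set.finite_le_nat j).image a).subset ?_
    rintro _ ⟨⟨n, rfl⟩, hn⟩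
    refine ⟨n, ?_, rfl⟩
    by_contra h1
    exact hn ((ha1 n).2 j (not_le.1 h1))

/-- all convergent index sets -/
def allConv : Set (Set ℕ) := {S | ∃ ζ, Conv S ζ}

/-- limit points of the subsequence indexed by `T` -/
def lims (T : Set ℕ) : Set (ℕ → Bool) := {ζ | ∃ S, S ⊆ T ∧ S.Infinite ∧ Conv S ζ}

theorem lims_finite {T : Set ℕ} (hT : Gen allConv T) : (lims T).Finite := by
  induction hT with
  | base A hA =>
    obtain ⟨ζ, hζ⟩ := hA
    refine (finite_singleton ζ).subset ?_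
    rintro ζ' ⟨S, hS1, hS2, hS3⟩
    exact hS3.unique hS2 (hζ.mono hS1)
  | fin A hA =>
    refine finite_empty.subset ?_
    rintro ζ' ⟨S, hS1, hS2, -⟩
    exact hS2 (hA.subset hS1)
  | sub A B hBA _ ih =>
    refine ih.subset ?_
    rintro ζ' ⟨S, hS1, hS2, hS3⟩
    exact ⟨S, hS1.trans hBA, hS2, hS3⟩
  | union A B _ _ ih1 ih2 =>
    refine (ih1.union ih2).subset ?_
    rintro ζ' ⟨S, hS1, hS2, hS3⟩
    by_cases h : (S ∩ A).Finite
    · right
      refine ⟨S ∩ B, inter_subset_right, fun h2 => hS2 ((h.union h2).subset ?_),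
        hS3.mono inter_subset_left⟩
      intro i hi
      rcases hS1 hi with h3 | h3
      · exact Or.inl ⟨hi, h3⟩
      · exact Or.inr ⟨hi, h3⟩
    · exact Or.inl ⟨S ∩ A, inter_subset_right, h, hS3.mono inter_subset_left⟩

theorem avoid {T : Set ℕ} (hT : Gen allConv T) (ζ : ℕ → Bool) (n : ℕ) :
    {i | i ∈ Tᶜ ∧ ∀ j < n, xs i j = ζ j}.Infinite := by
  have hinf : {ξ : ℕ → Bool | ∀ j < n, ξ j = ζ j}.Infinite := by
    have hinj : Function.Injective
        (fun m : ℕ => fun j => if j < n then ζ j else decide (j = n + m)) := by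
      intro m m' h
      have := congrFun h (n + m)
      simpa using this
    refine (infinite_range_of_injective hinj).mono ?_
    rintro _ ⟨m, rfl⟩ j hj
    simp [hj]
  obtain ⟨ξ, hξ1, hξ2⟩ := (hinf.sdiff (lims_finite hT)).nonempty
  obtain ⟨S, hS1, hS2, hS3⟩ := exists_conv (W := {i | ∀ j < n, xs i j = ζ j}) (ζ := ξ) (by
    intro m
    refine (xs_dense ξ (max n m)).mono fun i hi => ⟨fun j hj => ?_, fun j hj => ?_⟩
    · rw [hi j (by omega), hξ1 j hj]
    · exact hi j (by omega))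
  have hfin : (S ∩ T).Finite := by
    by_contra h
    exact hξ2 ⟨S ∩ T, inter_subset_right, h, hS3.mono inter_subset_left⟩
  refine (hS2.sdiff hfin).mono ?_
  rintro i ⟨hi1, hi2⟩
  exact ⟨fun h => hi2 ⟨hi1, h⟩, hS1 hi1⟩

/-- the subset with a given characteristic function -/
def toSet (ξ : ℕ → Bool) : Set ℕ := {n | ξ n = true}

/-- generators attached to a family `K` of points -/
def gens (K : Set (ℕ → Bool)) : Set (Set ℕ) := toSet '' K ∪ {S | ∃ ζ, ζ ∉ K ∧ Conv S ζ}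

theorem exists_ideal : ∃ I : Set (Set ℕ),
    (∀ A B : Set ℕ, A ∈ I → B ⊆ A → B ∈ I) ∧
    (∀ A B : Set ℕ, A ∈ I → B ∈ I → A ∪ B ∈ I) ∧
    (∀ A : Set ℕ, A.Finite → A ∈ I) ∧ (Set.univ : Set ℕ) ∉ I ∧
    {ℓ : ℕ → Bool | ∃ A : Set ℕ, A ∉ I ∧ Tendsto xs (atTop ⊓ 𝓟 A) (𝓝 ℓ)}
      = {f : ℕ → Bool | {n : ℕ | f n = true} ∈ I} := by
  classical
  let R : (ℕ → Bool) → (ℕ → Bool) → Prop := fun ξ ζ =>
    Gen allConv (toSet ξ) ∧ ζ ∈ lims (toSet ξ)
  have hR : ∀ ξ, {ζ | R ξ ζ}.Countable := by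
    intro ξ
    by_cases h : Gen allConv (toSet ξ)
    · exact ((lims_finite h).subset fun ζ hζ => hζ.2).countable
    · exact (finite_empty.subset fun ζ hζ => h hζ.1).countable
  obtain ⟨f, hf1, hf2⟩ := exists_order R hR
  have hwf : WellFounded fun ξ η : ℕ → Bool => f ξ < f η := InvImage.wf f wellFounded_lt
  let J : (ℕ → Bool) → Prop :=
    hwf.fix fun η rec => Gen (gens {ξ | ∃ h : f ξ < f η, rec ξ h}) (toSet η)
  have hJ : ∀ η, J η ↔ Gen (gens {ξ | f ξ < f η ∧ J ξ}) (toSet η) := by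
    intro η
    have h1 : J η = Gen (gens {ξ | ∃ _ : f ξ < f η, J ξ}) (toSet η) := hwf.fix_eq _ η
    rw [h1]
    simp only [exists_prop]
  have hseg : ∀ (P : (ℕ → Bool) → Prop), (∀ a b, f a ≤ f b → P b → P a) →
      ∀ ξ, J ξ → Gen (gens {ξ | P ξ ∧ J ξ}) (toSet ξ) := by
    intro P hP ξ
    induction ξ using hwf.induction with
    | _ ξ ih =>
      intro hξ
      by_cases h : P ξ
      · exact Gen.base _ (Or.inl ⟨ξ, ⟨h, hξ⟩, rfl⟩)
      · refine Gen.trans ?_ ((hJ ξ).1 hξ)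
        rintro _ (⟨ξ', ⟨h1, h2⟩, rfl⟩ | ⟨ζ, h1, h2⟩)
        · exact ih ξ' h1 h2
        · refine Gen.base _ (Or.inr ⟨ζ, fun h3 => h1 ⟨?_, h3.2⟩, h2⟩)
          by_contra h4
          exact h (hP _ _ (not_lt.1 h4) h3.1)
  have hseg' : ∀ (P : (ℕ → Bool) → Prop), (∀ a b, f a ≤ f b → P b → P a) →
      ∀ A, Gen (gens {ξ | J ξ}) A → Gen (gens {ξ | P ξ ∧ J ξ}) A := by
    intro P hP A hA
    refine Gen.trans ?_ hA
    rintro _ (⟨ξ', h2, rfl⟩ | ⟨ζ, h1, h2⟩)
    · exact hseg P hP ξ' h2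
    · exact Gen.base _ (Or.inr ⟨ζ, fun h3 => h1 h3.2, h2⟩)
  have hconv : ∀ A, Gen (gens {ξ | J ξ}) A → Gen allConv A := by
    intro A hA
    refine Gen.trans ?_ (hseg' (fun _ => False) (fun _ _ _ h => h) A hA)
    rintro _ (⟨ξ', h2, rfl⟩ | ⟨ζ, -, h2⟩)
    · exact h2.1.elim
    · exact Gen.base _ ⟨ζ, h2⟩
  have hIJ : ∀ η, Gen (gens {ξ | J ξ}) (toSet η) ↔ J η := by
    intro η
    refine ⟨fun h => (hJ η).2 (hseg' (fun ξ => f ξ < f η)
      (fun a b hab hb => lt_of_le_of_lt hab hb) _ h), fun h => Gen.base _ (Or.inl ⟨η, h, rfl⟩)⟩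
  refine ⟨{A | Gen (gens {ξ | J ξ}) A}, fun A B hA hBA => Gen.sub A B hBA hA,
    fun A B hA hB => Gen.union A B hA hB, fun A hA => Gen.fin A hA, ?_, ?_⟩
  · intro h
    have h1 := avoid (hconv _ h) (fun _ => false) 0
    simp at h1
  · ext ζ
    simp only [mem_ofPred_eq, tendsto_iff_conv]
    rw [show {n : ℕ | ζ n = true} = toSet ζ from rfl, hIJ]
    constructor
    · rintro ⟨A, hA1, hA2⟩
      by_contra h
      exact hA1 (Gen.base _ (Or.inr ⟨ζ, h, hA2⟩))
    · intro hζ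
      have hT : Gen allConv (⋃ ξ ∈ {b | f b ≤ f ζ ∧ R b ζ}, toSet ξ) :=
        Gen.biUnion (hf2 ζ) fun ξ hξ => hξ.2.1
      obtain ⟨S, hS1, hS2, hS3⟩ := exists_conv (avoid hT ζ)
      refine ⟨S, fun h => hS2 ?_, hS3⟩
      have h1 := hseg' (fun ξ => f ξ ≤ f ζ) (fun a b hab hb => hab.trans hb) _ h
      have h2 := Gen.inter_finite (S := S) ?_ h1
      · simpa using h2
      · rintro _ (⟨ξ, ⟨h3, h4⟩, rfl⟩ | ⟨ζ', h3, h4⟩)
        · by_contra h5
          have h6 : R ξ ζ := ⟨hconv _ ((hIJ ξ).2 h4),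
            S ∩ toSet ξ, inter_subset_right, h5, hS3.mono inter_subset_left⟩
          obtain ⟨i, hi1, hi2⟩ := (show (S ∩ toSet ξ).Infinite from h5).nonempty
          exact hS1 hi1 (mem_biUnion (show ξ ∈ {b | f b ≤ f ζ ∧ R b ζ} from ⟨h3, h6⟩) hi2)
        · by_contra h5
          have h6 : ζ = ζ' := Conv.unique h5 (hS3.mono inter_subset_left)
            (h4.mono inter_subset_right)
          exact h3 (h6 ▸ ⟨le_rfl, hζ⟩)

end Pool.Agent.H729Z.SelfLim
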